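import Pool.Agent.Lib.MP_e1f7e2_al.FA.Iface

/-!
Project FA, modules FIVEF and FIVEN.
-/

set_option autoImplicit false

namespace Pool.Agent.Lib.MP_e1f7e2_al.FA.H78

theorem fivef (K : Type*) [Field K] (w : Fin 3 → ℝ) (_hw : Gen w) (F : Facts K w) :
    FivefStatement K w := by
  intro ν l m g c0 h
  by_contra hnc
  set Q : A K 3 := g - c0 with hQ
  have hgQ : g - Q = c0 := by rw [hQ]; abel
  have hlt : dg w (g - Q) < dg w g := by rw [hgQ]; exact h.dlt
  have hdQ : dg w Q = dg w g := F.t.dgtop g Q hlt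
  have hlt' : dg w (Q - g) < dg w Q := by rw [F.d.sub_comm, hdQ]; exact hlt
  have hlm : l * m ≠ m * l := F.f.nc l m c0 h.fr
  have hnm : 0 < dg w m := F.f.pos m l c0 (F.f.p12 l m c0 h.fr)
  have hcom : Com w g l := by
    have := h.nd.com
    unfold Com at *
    rw [F.e.comm]; linarith
  have hcQ : Com w Q l := F.t.comtop g Q l h.nd.pg h.nd.pf hlt hcom
  have hdv : Dv w Q l := F.t.fr3 l m Q h.nd.pf hnm hnc h.q (by rw [hdQ]; exact h.nd.pg) hcQ
  exact h.nd.ngf (F.t.dvtop Q g l (by rw [hdQ]; exact h.nd.pg) hlt' hdv)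

/-- goodness only depends on degrees and commutators -/
theorem gd_of {K : Type*} [Field K] {w : Fin 3 → ℝ} {l g g' : A K 3} (h : Gd w l g')
    (hd : dg w g' = dg w g) (hE : E w l g = E w l g') : Gd w l g := by
  have hD : Df w l g = Df w l g' := by unfold Df; rw [hE, hd]
  constructor
  · rw [hD, ← hd]; exact h.lmin
  · rw [hD, ← hd]; exact h.lmax

/-- a polynomial expression in `g` which commutes with `g` in degree is divisible by `g` -/
theorem dv_poly {K : Type*} [Field K] {w : Fin 3 → ℝ} (F : Facts K w) {q g : A K 3}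
    (hq : 0 < dg w q) (hg : 0 < dg w g) (hc : Com w q g) (R : Polynomial K)
    (hR : dg w q = dg w (Polynomial.aeval g R)) : Dv w q g :=
  F.e.dv q g R.natDegree hq hg hc (by rw [hR, F.d.poly g R hg])

theorem fiven (K : Type*) [Field K] (w : Fin 3 → ℝ) (_hw : Gen w) (F : Facts K w) :
    FivenStatement K w := by
  intro ν l m g c0 hHB hLN hfr hmn hred hvd hq hdlt hnd hndm
  set Q : A K 3 := g - c0 with hQ
  have hgQ : g - Q = c0 := by rw [hQ]; abel
  have hcQg : c0 + Q = g := by rw [hQ]; abel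
  have hlt : dg w (g - Q) < dg w g := by rw [hgQ]; exact hdlt
  have hdQ : dg w Q = dg w g := F.t.dgtop g Q hlt
  have hQpos : 0 < dg w Q := by rw [hdQ]; exact hnd.pg
  have hlt' : dg w (Q - g) < dg w Q := by rw [F.d.sub_comm, hdQ]; exact hlt
  have hlm : l * m ≠ m * l := F.f.nc l m c0 hfr
  have hml : m * l ≠ l * m := fun h => hlm h.symm
  have hcom : Com w g l := by
    have := hnd.com
    unfold Com at *
    rw [F.e.comm]; linarith
  have hcQ : Com w Q l := F.t.comtop g Q l hnd.pg hnd.pf hlt hcom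
  have hnQ : ¬ Dv w Q l := fun hdv => hnd.ngf (F.t.dvtop Q g l hQpos hlt' hdv)
  have hgd : Gd w l m := hHB l m c0 hfr hvd hred hndm
  have hndm' : ND w m l := F.t.ndsymm l m hndm
  have hgd' : Gd w m l := F.t.gdsymm l m hgd
  have hBml : Q ∈ B m l := by rw [F.s.bcomm]; exact hq
  by_cases hE : E w (c0 + Q) l < E w Q l
  · obtain ⟨hlm', k, R, hQe⟩ := hLN l m c0 hfr hred hvd hndm hmn Q hq hQpos hcQ hnQ
      (by rw [hdQ]; exact hdlt) hE
    by_cases hk : k = 0
    · exfalso
      rw [hk, zero_smul, zero_add] at hQe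
      exact hnQ (dv_poly F hQpos hnd.pf hcQ R (by rw [← hQe]))
    obtain ⟨hmax, hne⟩ := F.t.nd1 m l k R hndm' hk
    rw [← hQe] at hmax
    have hRlt : dg w (Polynomial.aeval l R) < dg w m := by
      by_contra hcon
      push Not at hcon
      apply hnQ
      apply dv_poly F hQpos hnd.pf hcQ R
      rw [hmax, max_eq_right hcon]
    have hQm : dg w Q = dg w m := by rw [hmax, max_eq_left hRlt.le]
    set g' : A K 3 := k • m + c0 with hg'
    have hgg' : g = g' + Polynomial.aeval l R := by
      rw [← hcQg, hQe, hg']; abel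
    have hEg : E w g l = E w g' l := by
      rw [hgg']; exact F.e.addp g' l R
    have hltg : dg w (g - g') < dg w g := by
      have : g - g' = Polynomial.aeval l R := by rw [hgg']; abel
      rw [this, ← hdQ, hQm]; exact hRlt
    have hdg' : dg w g' = dg w g := F.t.dgtop g g' hltg
    have hnd' : ND w l g' := F.t.ndsymm g' l (F.t.ndtop g g' l hltg (F.t.ndsymm l g hnd))
    have hfr1 : Fr l c0 m := F.f.p23 l m c0 hfr
    have hfr2 : Fr l c0 g' := F.f.el l c0 m c0 k hfr1 hk (F.s.bg l c0)
    have hfr3 : Fr l g' c0 := F.f.p23 l c0 g' hfr2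
    have hc0 : c0 ∈ lin l c0 := by
      rw [F.s.linmem]
      exact ⟨0, 1, 0, by simp⟩
    have hsp : sp l g' c0 = sp l m c0 := by
      rw [F.s.scomm' l g' c0, hg', F.s.sel l c0 m c0 k hk hc0, F.s.scomm' l c0 m]
    have hgd2 : Gd w l g' := hHB l g' c0 hfr3 (by rw [hsp]; exact hvd) (by rw [hsp]; exact hred)
      hnd'
    exact gd_of hgd2 hdg' (by rw [F.e.comm l g, F.e.comm l g', hEg])
  · push Not at hE
    rw [hcQg] at hE
    have hxa := F.t.xa m l Q hml hBml hQpos hnQ
    have hD : Df w l g ≤ Df w l m := by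
      unfold Df
      rw [F.e.comm l g, F.e.comm l m]
      linarith
    have hmg : dg w m ≤ dg w g := by
      by_contra hcon
      push Not at hcon
      have hQlt : dg w Q < dg w m := by rw [hdQ]; exact hcon
      rcases lt_or_gt_of_ne (F.t.ndne l m hndm) with hl | hl
      · exact hnQ (F.t.w2 m l Q hml hndm' hgd' hl hBml hQlt hQpos hcQ).1
      · have hEl : dg w m < E w l m := by
          have h1 := hgd.lmax
          rw [max_eq_left hl.le] at h1
          unfold Df at h1
          linarith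
        obtain ⟨c, hc⟩ := F.t.xe0 l m Q hlm hl hndm.nfg hEl hq hQlt
        rw [hc, F.d.const] at hQpos
        exact lt_irrefl _ hQpos
    constructor
    · have h1 := hgd.lmin
      have h2 : min (dg w l) (dg w m) ≤ min (dg w l) (dg w g) := min_le_min le_rfl hmg
      linarith
    · have h1 := hgd.lmax
      have h2 : max (dg w l) (dg w m) ≤ max (dg w l) (dg w g) := max_le_max le_rfl hmg
      linarith

end Pool.Agent.Lib.MP_e1f7e2_al.FA.H78
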