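import Pool.Agent.Lib.MP_e1f7e2_al.FA.Iface

/-!
Project FA, modules FIVEO and FIVET.
-/

set_option autoImplicit false

namespace Pool.Agent.Lib.MP_e1f7e2_al.FA.H78

section
variable {K : Type*} [Field K] {w : Fin 3 → ℝ}

/-- the polynomial expression `-(c g^k)` -/
theorem aeval_mono (g : A K 3) (c : K) (k : ℕ) :
    Polynomial.aeval g (-(Polynomial.C c * Polynomial.X ^ k)) = -(c • g ^ k) := by
  rw [map_neg, map_mul, Polynomial.aeval_C, map_pow, Polynomial.aeval_X, Algebra.smul_def]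

theorem mono_mem (F : Facts K w) (f g : A K 3) (c : K) (k : ℕ) : -(c • g ^ k) ∈ B f g := by
  rw [← aeval_mono]; exact F.s.bpoly f g _

theorem B_mono (F : Facts K w) (f g : A K 3) (c : K) (k : ℕ) :
    B (f - c • g ^ k) g = B f g := by
  have h := F.s.bel f g 1 (-(Polynomial.C c * Polynomial.X ^ k)) one_ne_zero
  rw [aeval_mono, one_smul, ← sub_eq_add_neg] at h
  exact h

theorem com_symm (F : Facts K w) {f g : A K 3} (h : Com w f g) : Com w g f := by
  unfold Com at *
  rw [F.e.comm]; linarith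

/-- degree of an element of a plane -/
theorem lin_le (F : Facts K w) (l m : A K 3) (a b c : K) :
    dg w (a • l + b • m + c • (1 : A K 3)) ≤ max (dg w l) (dg w m) := by
  refine (F.d.add_le _ _).trans (max_le ?_ ?_)
  · exact (F.d.add_le _ _).trans (max_le_max (F.d.smul_le a l) (F.d.smul_le b m))
  · rw [F.d.const]; exact le_trans (F.d.nn l) (le_max_left _ _)

/-- `(l, m, g)` is a good basis when `g` is not proportional to `l` or `m` -/
theorem or3_of (F : Facts K w) (l m g : A K 3) (hfr : Fr l m g) (hor : Or2 w l m)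
    (hl : dg w g ≠ dg w l) (hm : dg w g ≠ dg w m) : Or3 w l m g := by
  apply F.o.mn3 l m g hfr hor
  intro r hr
  by_contra hcon
  push Not at hcon
  have hgpos : 0 < dg w g := F.f.pos g l m (F.f.p12 l g m (F.f.p23 l m g hfr))
  have h1 : dg w (g - (-r)) < dg w g := by rw [sub_neg_eq_add]; exact hcon
  have h2 : dg w (-r) = dg w g := F.t.dgtop g (-r) h1
  rw [F.d.neg] at h2
  obtain ⟨a, b, c, rfl⟩ := (F.s.linmem l m r).1 hr
  have h3 := hor a b c
  by_cases ha : a = 0
  · by_cases hb : b = 0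
    · rw [ha, hb, zero_smul, zero_smul, zero_add, zero_add, F.d.const] at h2
      linarith
    · have h4 := h3.2 hb
      have h5 : dg w (a • l + b • m + c • (1 : A K 3)) ≤ dg w m := by
        rw [ha, zero_smul, zero_add]
        refine (F.d.add_le _ _).trans (max_le (F.d.smul_le b m) ?_)
        rw [F.d.const]; exact F.d.nn m
      exact hm (by linarith)
  · by_cases hb : b = 0
    · have h4 := h3.1 ha
      have h5 : dg w (a • l + b • m + c • (1 : A K 3)) ≤ dg w l := by
        rw [hb, zero_smul, add_zero]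
        refine (F.d.add_le _ _).trans (max_le (F.d.smul_le a l) ?_)
        rw [F.d.const]; exact F.d.nn l
      exact hl (by linarith)
    · have h4 := h3.1 ha
      have h6 := h3.2 hb
      have h5 := lin_le F l m a b c
      rcases max_choice (dg w l) (dg w m) with h | h
      · rw [h] at h5; exact hl (by linarith)
      · rw [h] at h5; exact hm (by linarith)

/-- `(l, m, c)` is a good basis if `c` is minimal -/
theorem or3_mn (F : Facts K w) (l m c : A K 3) (hfr : Fr l m c) (hor : Or2 w l m)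
    (hmn : Mn w c l m) : Or3 w l m c :=
  F.o.mn3 l m c hfr hor fun r hr => hmn r (F.s.linB l m r hr)

end

theorem fiveo (K : Type*) [Field K] (w : Fin 3 → ℝ) (_hw : Gen w) (F : Facts K w) :
    FiveoStatement K w := by
  intro ν l m g c0 hHA hHB h hdv
  have hfr := h.fr
  have hmpos : 0 < dg w m := F.f.pos m l c0 (F.f.p12 l m c0 hfr)
  have hlpos : 0 < dg w l := h.nd.pf
  obtain ⟨-, hcml, c, k, hc, hk, hdm, hlt⟩ := F.e.dv' m l hmpos hdv
  set m1 : A K 3 := m - c • l ^ k with hm1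
  have hcgl : Com w g l := com_symm F h.nd.com
  have hgl : dg w g ≠ dg w l := fun e => F.t.ndne l g h.nd e.symm
  have hgm : dg w g ≠ dg w m := fun e =>
    h.nd.ngf (F.e.dv g l k h.nd.pg hlpos hcgl (by rw [e, hdm]))
  obtain ⟨hfrg, -⟩ := F.f.adjm l m c0 g hfr h.q
  have hor3 : Or3 w l m g := or3_of F l m g hfrg h.or2 hgl hgm
  have hor3c : Or3 w l m c0 := or3_mn F l m c0 hfr h.or2 h.mn
  -- U' = <l, m1, c0>
  have hfr1 : Fr l c0 m := F.f.p23 l m c0 hfr
  have hm1m : m1 - m = -(c • l ^ k) := by rw [hm1]; abel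
  have hq1 : m1 - m ∈ B l c0 := by
    rw [hm1m, F.s.bcomm]; exact mono_mem F c0 l c k
  obtain ⟨hfr2, hadj2⟩ := F.f.adjm l c0 m m1 hfr1 hq1
  have hred2 : Red w (sp l c0 m1) := hHA _ _ (by rw [← F.s.scomm' l m c0]; exact h.lt)
    (by rw [← F.s.scomm' l m c0]; exact h.red) hadj2
  have hvd2 : vd w (sp l c0 m1) < ν :=
    (F.v.strict l c0 m m1 hfr1 (F.o.or3p23 l m c0 hor3c) hq1 hlt).trans
      (by rw [← F.s.scomm' l m c0]; exact h.lt)
  -- V'' = <l, m1, g>
  have hfr3 : Fr l m1 c0 := F.f.p23 l c0 m1 hfr2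
  have hBm1 : B l m1 = B l m := by
    rw [F.s.bcomm l m1, hm1, B_mono F m l c k, F.s.bcomm]
  obtain ⟨hfr4, hadj4⟩ := F.f.adjm l m1 c0 g hfr3 (by rw [hBm1]; exact h.q)
  have hred4 : Red w (sp l m1 g) := hHA _ _ (by rw [F.s.scomm' l m1 c0]; exact hvd2)
    (by rw [F.s.scomm' l m1 c0]; exact hred2) hadj4
  have hq5 : m1 - m ∈ B l g := by
    rw [hm1m, F.s.bcomm]; exact mono_mem F g l c k
  have hvd5 : vd w (sp l g m1) < ν := by
    refine lt_of_lt_of_le (F.v.strict l g m m1 (F.f.p23 l m g hfrg) (F.o.or3p23 l m g hor3)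
      hq5 hlt) ?_
    rw [F.s.scomm' l g m]; exact h.le
  exact hHB l g m1 (F.f.p23 l m1 g hfr4) hvd5 (by rw [F.s.scomm' l g m1]; exact hred4) h.nd

section
variable {K : Type*} [Field K] {w : Fin 3 → ℝ}

/-- case D2b -/
theorem d2b (F : Facts K w) (ν : ℝ) (hLC : LClt K w ν) (m g l ls : A K 3) (hfr : Fr m g ls)
    (hred : Red w (sp m g ls)) (hvd : vd w (sp m g ls) < ν) (hmn : Mn w ls m g)
    (hq : l - ls ∈ B m g) (hls : dg w ls < dg w l) (n k : ℕ) (c c' : K) (hk : 2 ≤ k) (hkn : k < n)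
    (hl : dg w (l - c' • m ^ n) < dg w l) (hg : dg w (g - c • m ^ k) < dg w g)
    (hdl : dg w l = n * dg w m) (hdg : dg w g = k * dg w m) (hm : 0 < dg w m)
    (hnd : ND w l g) : Gd w l g := by
  set Q : A K 3 := l - ls with hQ
  have hlQ : dg w (l - Q) < dg w l := by
    have : l - Q = ls := by rw [hQ]; abel
    rw [this]; exact hls
  have hdQ : dg w Q = dg w l := F.t.dgtop l Q hlQ
  have hQl : dg w (Q - l) < dg w Q := by rw [F.d.sub_comm, hdQ]; exact hlQ
  have hQpos : 0 < dg w Q := by rw [hdQ]; exact hnd.pf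
  have hnQ : ¬ Dv w Q g := fun hdv => hnd.nfg (F.t.dvtop Q l g hQpos hQl hdv)
  have hQm : dg w (Q - c' • m ^ n) < dg w Q := by
    have e : Q - c' • m ^ n = (l - c' • m ^ n) - ls := by rw [hQ]; abel
    rw [e, hdQ]
    exact lt_of_le_of_lt (F.d.sub_le _ _) (max_lt hl hls)
  have hLC' := hLC m g ls hfr hred hvd n k c c' Q (by omega) hkn hg hmn hq hQm hnQ
    (by rw [hdQ]; exact hls)
  have hlsQ : ls + Q = l := by rw [hQ]; abel
  rw [hlsQ] at hLC'
  have hmg : m * g ≠ g * m := F.f.nc m g ls hfr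
  have hxa := F.t.xa m g Q hmg hq hQpos hnQ
  have hpos := (F.e.pos m g hmg).1
  have hD : Df w l g < dg w g + dg w m := by
    unfold Df
    linarith
  have hk' : (2 : ℝ) ≤ k := by exact_mod_cast hk
  have hkn' : (k : ℝ) + 1 ≤ n := by exact_mod_cast hkn
  have hgl : dg w g < dg w l := by
    rw [hdg, hdl]; nlinarith
  constructor
  · rw [min_eq_right hgl.le]
    have : dg w m ≤ dg w g / 2 := by rw [hdg]; nlinarith
    linarith
  · rw [max_eq_left hgl.le]
    have : dg w g + dg w m ≤ dg w l := by rw [hdg, hdl]; nlinarith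
    linarith

end

theorem fivet (K : Type*) [Field K] (w : Fin 3 → ℝ) (_hw : Gen w) (F : Facts K w)
    (hN : FivenStatement K w) : FivetStatement K w := by
  intro ν l m g c0 hHA hHB hLN hLC h hdv
  have hfr := h.fr
  have hmpos : 0 < dg w m := F.f.pos m l c0 (F.f.p12 l m c0 hfr)
  have hlpos : 0 < dg w l := h.nd.pf
  obtain ⟨-, hclm, c, n, hc, hn, hdl, hlt⟩ := F.e.dv' l m hlpos hdv
  set l1 : A K 3 := l - c • m ^ n with hl1
  have hcgl : Com w g l := com_symm F h.nd.com
  have hcgm : Com w g m := F.c.trans g l m h.nd.pg hlpos hmpos hcgl hclm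
  have hgl : dg w g ≠ dg w l := fun e => F.t.ndne l g h.nd e.symm
  have hgm : dg w g ≠ dg w m := fun e =>
    h.nd.nfg (F.e.dv l g n hlpos h.nd.pg h.nd.com (by rw [e, hdl]))
  obtain ⟨hfrg, -⟩ := F.f.adjm l m c0 g hfr h.q
  have hor3 : Or3 w l m g := or3_of F l m g hfrg h.or2 hgl hgm
  have hor3c : Or3 w l m c0 := or3_mn F l m c0 hfr h.or2 h.mn
  -- frames
  have p231 : ∀ f g h : A K 3, Fr f g h → Fr g h f := fun f g h hh =>
    F.f.p23 g f h (F.f.p12 f g h hh)
  have s231 : ∀ f g h : A K 3, sp f g h = sp g h f := fun f g h => by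
    rw [F.s.scomm f g h, F.s.scomm' g f h]
  have o231 : ∀ f g h : A K 3, Or3 w f g h → Or3 w g h f := fun f g h hh =>
    F.o.or3p23 g f h (F.o.or3p12 f g h hh)
  -- U1 = <m, c0, l1>
  have hfr1 : Fr m c0 l := p231 l m c0 hfr
  have hl1l : l1 - l = -(c • m ^ n) := by rw [hl1]; abel
  have hq1 : l1 - l ∈ B m c0 := by
    rw [hl1l, F.s.bcomm]; exact mono_mem F c0 m c n
  obtain ⟨hfr2, hadj2⟩ := F.f.adjm m c0 l l1 hfr1 hq1
  have hred2 : Red w (sp m c0 l1) := hHA _ _ (by rw [← s231 l m c0]; exact h.lt)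
    (by rw [← s231 l m c0]; exact h.red) hadj2
  have hvd2 : vd w (sp m c0 l1) < ν :=
    (F.v.strict m c0 l l1 hfr1 (o231 l m c0 hor3c) hq1 hlt).trans
      (by rw [← s231 l m c0]; exact h.lt)
  -- V1 = <l1, m, g>
  have hfr3 : Fr l1 m c0 := p231 c0 l1 m (p231 m c0 l1 hfr2)
  have hs3 : sp l1 m c0 = sp m c0 l1 := s231 l1 m c0
  have hBl1 : B l1 m = B l m := by rw [hl1, B_mono F l m c n]
  obtain ⟨hfr4, hadj4⟩ := F.f.adjm l1 m c0 g hfr3 (by rw [hBl1]; exact h.q)
  have hred4 : Red w (sp l1 m g) := hHA _ _ (by rw [hs3]; exact hvd2)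
    (by rw [hs3]; exact hred2) hadj4
  have hq5 : l1 - l ∈ B m g := by
    rw [hl1l, F.s.bcomm]; exact mono_mem F g m c n
  have hfr5 : Fr m g l := p231 l m g hfrg
  have hor5 : Or3 w m g l := o231 l m g hor3
  have hs5 : sp m g l = sp l m g := (s231 l m g).symm
  have hvd5 : vd w (sp m g l1) < ν := by
    refine lt_of_lt_of_le (F.v.strict m g l l1 hfr5 hor5 hq5 hlt) ?_
    rw [hs5]; exact h.le
  have hred5 : Red w (sp m g l1) := by rw [← s231 l1 m g]; exact hred4
  have hfr6 : Fr m g l1 := p231 l1 m g hfr4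
  -- the minimal representative
  obtain ⟨q, hq, hmn⟩ := F.o.mnex m g l
  set ls : A K 3 := l + q with hls
  have hq7 : ls - l1 ∈ B m g := by
    have : ls - l1 = q - (l1 - l) := by rw [hls]; abel
    rw [this]; exact sub_mem hq hq5
  obtain ⟨hfr7, hadj7⟩ := F.f.adjm m g l1 ls hfr6 hq7
  have hred7 : Red w (sp m g ls) := hHA _ _ hvd5 hred5 hadj7
  have hlsl1 : dg w ls ≤ dg w l1 := by
    have := hmn (l1 - ls) (by
      have e : l1 - ls = -(ls - l1) := by abel
      rw [e]; exact neg_mem hq7)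
    have e : ls + (l1 - ls) = l1 := by abel
    rwa [e] at this
  have hlslt : dg w ls < dg w l := lt_of_le_of_lt hlsl1 hlt
  have hqls : ls - l ∈ B m g := by
    have : ls - l = q := by rw [hls]; abel
    rw [this]; exact hq
  have hvd7 : vd w (sp m g ls) < ν := by
    refine lt_of_lt_of_le (F.v.strict m g l ls hfr5 hor5 hqls hlslt) ?_
    rw [hs5]; exact h.le
  have hlls : l - ls ∈ B m g := by
    have : l - ls = -(ls - l) := by abel
    rw [this]; exact neg_mem hqls
  by_cases hdgm : Dv w g m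
  · -- D2b
    obtain ⟨-, -, c', k, hc', hk, hdg, hltg⟩ := F.e.dv' g m h.nd.pg hdgm
    have hk2 : 2 ≤ k := by
      by_contra hcon
      have : k = 1 := by omega
      rw [this, Nat.cast_one, one_mul] at hdg
      exact hgm hdg
    have hn2 : 2 ≤ n := by
      by_contra hcon
      have : n = 1 := by omega
      rw [this, Nat.cast_one, one_mul] at hdl
      exact F.o.or2com l m hlpos h.or2 hclm hdl
    rcases lt_trichotomy k n with hkn | hkn | hkn
    · exact d2b F ν hLC m g l ls hfr7 hred7 hvd7 hmn hlls hlslt n k c' c hk2 hkn hlt hltg hdl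
        hdg hmpos h.nd
    · exact absurd (by rw [hdg, hdl, hkn]) hgl
    · have hBml : g - c0 ∈ B m l := by rw [F.s.bcomm]; exact h.q
      have hmnml : Mn w c0 m l := by
        intro q hq
        rw [F.s.bcomm] at hq
        exact h.mn q hq
      have := d2b F ν hLC m l g c0 (F.f.p12 l m c0 hfr) (by rw [F.s.scomm]; exact h.red)
        (by rw [F.s.scomm]; exact h.lt) hmnml hBml h.dlt k n c c' hn2 hkn hltg hlt hdg hdl hmpos
        (F.t.ndsymm l g h.nd)
      exact F.t.gdsymm g l this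
  · -- D2a
    have hnd : ND w g m := by
      refine ⟨h.nd.pg, hmpos, hcgm, hdgm, fun hdmg => ?_⟩
      exact h.nd.nfg (F.t.dvtrans l m g hlpos hdv hdmg)
    have hBgm : B g m = B m g := F.s.bcomm g m
    have := hN ν g m l ls hHB hLN (F.f.p12 m g ls hfr7) (by
        intro q hq
        rw [hBgm] at hq
        exact hmn q hq) (by rw [F.s.scomm]; exact hred7) (by rw [F.s.scomm]; exact hvd7)
      (by rw [hBgm]; exact hlls) hlslt (F.t.ndsymm l g h.nd) hnd
    exact F.t.gdsymm g l this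

end Pool.Agent.Lib.MP_e1f7e2_al.FA.H78
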