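import Pool.Agent.Lib.MP_e1f7e2_al.FA.Iface

/-!
Project FA, module MAIN: the induction on the degree of vertices.
-/

set_option autoImplicit false

namespace Pool.Agent.Lib.MP_e1f7e2_al.FA.H78

theorem main (K : Type*) [Field K] (w : Fin 3 → ℝ) (_hw : Gen w) (F : Facts K w)
    (hall : LemallStatement K w) (hfive : FiveStatement K w) (hsi : SixiStatement K w)
    (hsf : SixfStatement K w) (hsg : SixgStatement K w) (hss : SixsStatement K w) :
    MainStatement K w := by
  have key : ∀ V : Submodule K (A K 3), Vtx V →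
      (∀ V', Red w V → Adj V V' → Red w V') ∧
      (∀ f g h : A K 3, Fr f g h → V = sp f g h → Red w V → ND w f g → Gd w f g) := by
    apply F.v.wf
    intro V hV ih
    have hHA : HA K w (vd w V) := fun V1 V2 hlt hr ha =>
      (ih V1 (F.f.vtx V1 V2 ha).1 hlt).1 V2 hr ha
    have hHB : HB K w (vd w V) := fun f g h hf hlt hr hn =>
      (ih (sp f g h) ⟨f, g, h, hf, rfl⟩ hlt).2 f g h hf rfl hr hn
    obtain ⟨hLB, hLN, hLC⟩ := hall (vd w V) hHA hHB
    have hb' : ∀ a b h : A K 3, Fr a b h → Red w (sp a b h) → vd w (sp a b h) = vd w V →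
        ND w a b → Gd w a b := fun a b h hf hr hv hn =>
      hfive (vd w V) a b h hHA hHB hLN hLC hf hr hv hn
    have h6 : H6 K w (vd w V) := ⟨hHA, hHB, hb', hLN⟩
    constructor
    · intro V' hr ha
      refine hss (vd w V) h6 (fun l m f fs m' hci => hsi (vd w V) l m f fs m' h6 hci) ?_ V V' rfl
        hr ha
      intro l m f fs f' k hcii
      by_cases h1 : Dv w f l ∨ ¬ Com w l m ∨ Dv w m l
      · exact hsf (vd w V) l m f fs f' k h6 hcii h1
      · push Not at h1
        obtain ⟨h1, h2, h3⟩ := h1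
        refine hsg (vd w V) l m f fs f' k h6 hcii h1 ?_
        by_cases h4 : Dv w l m
        · exact Or.inl h4
        · refine Or.inr ⟨F.f.pos l m f hcii.c6.fr, F.f.pos m l f (F.f.p12 l m f hcii.c6.fr), h2,
            h4, h3⟩
    · intro f g h hf hVe hr hn
      rw [hVe] at hr
      exact hb' f g h hf hr (by rw [hVe]) hn
  constructor
  · intro V V' hr ha
    exact (key V (F.f.vtx V V' ha).1).1 V' hr ha
  · intro f g h hf hr hn
    exact (key (sp f g h) ⟨f, g, h, hf, rfl⟩).2 f g h hf rfl hr hn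

end Pool.Agent.Lib.MP_e1f7e2_al.FA.H78
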