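import Pool.Agent.Lib.MP_e1f7e2_al.FA.Iface

/-!
Project FA, module XA.
-/

set_option autoImplicit false

namespace Pool.Agent.Lib.MP_e1f7e2_al.FA.H78

section
variable {K : Type*} [Field K] {w : Fin 3 → ℝ}

theorem ne_zero_of_pos (hd : DegFacts K w) {f : A K 3} (h : 0 < dg w f) : f ≠ 0 := by
  rintro rfl
  rw [hd.zero] at h
  exact lt_irrefl _ h

theorem top_pow (hd : DegFacts K w) (ht : TopFacts K w) (g : A K 3) (hg : 0 < dg w g) (k : ℕ) :
    top w (g ^ (k + 1)) = top w g ^ (k + 1) := by
  have hg0 : g ≠ 0 := ne_zero_of_pos hd hg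
  induction k with
  | zero => rw [zero_add, pow_one, pow_one]
  | succ k ih =>
    have hk : g ^ (k + 1) ≠ 0 := by
      apply ne_zero_of_pos hd
      rw [hd.pow]
      positivity
    rw [pow_succ, ht.mul _ _ hk hg0, ih, ← pow_succ]

end

theorem xa (K : Type*) [Field K] (w : Fin 3 → ℝ) (_hw : Gen w) (hd : DegFacts K w)
    (hb : DegbFacts K w) (hc : ChainFacts K 3) (hdiv : DivStatement K w) (ht : TopFacts K w)
    (he : EFacts K w) : XaFacts K w := by
  constructor
  intro f g q hfg hq hqpos hnd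
  obtain ⟨P, rfl⟩ := (hc.bmem f g q).1 hq
  set q : A K 3 := ev P f g with hqdef
  set T : A2 K 3 := evl2 ![f, g] (dX 0 P) with hT
  set U : A2 K 3 := evl2 ![f, g] (dX 1 P) with hU
  have hch : dl q = T * dl f + U * dl g := hc.chaind P f g
  have hfpos := (he.pos f g hfg).2.1
  have hgpos := (he.pos f g hfg).2.2
  have hdlf : dl f ≠ 0 := by
    intro h
    have := hb.dl' f
    rw [h, hb.zero] at this
    linarith
  have hdlg : dl g ≠ 0 := by
    intro h
    have := hb.dl' g
    rw [h, hb.zero] at this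
    linarith
  by_cases hcase : T = 0 ∨ dg2 w T + dg w f < dg w q
  · exfalso
    have hTf : dg2 w (T * dl f) < dg2 w (dl q) := by
      rw [hb.dl']
      rcases hcase with h | h
      · rw [h, zero_mul, hb.zero]; exact hqpos
      · by_cases hT0 : T = 0
        · rw [hT0, zero_mul, hb.zero]; exact hqpos
        · rw [hb.mul T (dl f) hT0 hdlf, hb.dl']; exact h
    have hUg : U * dl g = dl q + -(T * dl f) := by rw [hch]; abel
    have hdeg : dg2 w (U * dl g) = dg2 w (dl q) := by
      rw [hUg]
      apply hb.add_left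
      rw [hb.neg]; exact hTf
    have hU0 : U ≠ 0 := by
      intro h
      rw [h, zero_mul, hb.zero, hb.dl'] at hdeg
      linarith
    have htop : top2 w (dl q) = top2 w (U * dl g) := by
      apply (ht.lt2 (dl q) (U * dl g) (by rw [hb.dl']; exact hqpos) hdeg.symm).1
      have : dl q - U * dl g = T * dl f := by rw [hch]; abel
      rw [this]; exact hTf
    rw [ht.dl' q hqpos, ht.mul2 U (dl g) hU0 hdlg, ht.dl' g hgpos] at htop
    obtain ⟨c, k, hck⟩ := hdiv (top w g) (top w q) (top2 w U) (ht.hom g)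
      (by rw [ht.dgt]; exact hgpos) (ht.hom q) (by rw [ht.dgt]; exact hqpos) htop.symm
    have hdq : dg w (c • top w g ^ k) = dg w q := by rw [← hck, ht.dgt]
    have hc0 : c ≠ 0 := by
      rintro rfl
      rw [zero_smul, hd.zero] at hdq
      linarith
    obtain ⟨k', rfl⟩ : ∃ k', k = k' + 1 := by
      rcases k with _ | k'
      · exfalso
        rw [pow_zero, hd.const] at hdq
        linarith
      · exact ⟨k', rfl⟩
    have hdq' : dg w q = dg w (c • g ^ (k' + 1)) := by
      rw [← hdq, hd.smul _ _ hc0, hd.smul _ _ hc0, hd.pow, hd.pow, ht.dgt]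
    apply hnd
    refine ⟨c, k' + 1, by omega, ?_⟩
    apply (ht.lt q (c • g ^ (k' + 1)) hqpos hdq').2
    rw [ht.smul, top_pow hd ht g hgpos, hck]
  · push Not at hcase
    have h1 := he.v2 f g P hfg hcase.1
    rw [← hqdef, ← hT] at h1
    linarith [hcase.2]

end Pool.Agent.Lib.MP_e1f7e2_al.FA.H78
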