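import Pool.Agent.Lib.MP_e1f7e2_al.FA.H78.Pbe
import Pool.Agent.Lib.MP_e1f7e2_al.FA.H74.Chain

/-!
Project FA, module PBALL: the cases PBA, PBB, PBC, PBE together.
-/

set_option autoImplicit false

namespace Pool.Agent.Lib.MP_e1f7e2_al.FA.H78

section
variable {K : Type*} [Field K] {n m : ℕ}

theorem map_ev (φ : A K m →ₐ[K] A K n) (P : A K 2) (f g : A K m) :
    φ (ev P f g) = ev P (φ f) (φ g) := by
  have : φ.comp (evl ![f, g]) = evl ![φ f, φ g] := by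
    apply alg_ext
    intro i
    rw [AlgHom.comp_apply, evl_xx, evl_xx]
    fin_cases i
    · rfl
    · rfl
  exact DFunLike.congr_fun this P

/-- the move `H3 ↦ H3 - P'(H1, H2)` -/
theorem move {w : Fin 3 → ℝ} (z : Fin 3 → A K 3) (θ : A K 3) (N M L m0 : ℕ) (H1 H2 H3 : A K 3)
    (h1 : Len M (Th z H1)) (h2 : Len M (Th z H2)) (h3 : Len M (Th z H3)) (hM : M ≤ m0)
    (hL : L * M ≤ m0) (P : A K 2) (hP : Len L P)
    (hlt : dg w (TN z θ N H3 - ev P (TN z θ N H1) (TN z θ N H2)) < dg w (TN z θ N H3)) :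
    ∃ q ∈ B H1 H2, Len m0 (Th z (H3 + q)) ∧
      dg w (TN z θ N (H3 + q)) < dg w (TN z θ N H3) := by
  refine ⟨-(ev P H1 H2), neg_mem (H74.ev_mem H1 H2 P), ?_, ?_⟩
  · rw [map_add, map_neg, map_ev]
    exact len_add (len_mono hM h3) (len_neg (len_mono hL (len_ev h1 h2 hP)))
  · rw [map_add, map_neg, map_ev, ← sub_eq_add_neg]
    exact hlt

/-- the move `H1 ↦ H1 - c H2 ^ k` -/
theorem move' {w : Fin 3 → ℝ} (z : Fin 3 → A K 3) (θ : A K 3) (N M L m0 : ℕ) (H1 H2 H3 : A K 3)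
    (h1 : Len M (Th z H1)) (h2 : Len M (Th z H2)) (hM : M ≤ m0)
    (hL : L * M ≤ m0) (c : K) (k : ℕ) (hk : k ≤ L)
    (hlt : dg w (TN z θ N H1 - c • TN z θ N H2 ^ k) < dg w (TN z θ N H1)) :
    ∃ q ∈ B H2 H3, Len m0 (Th z (H1 + q)) ∧
      dg w (TN z θ N (H1 + q)) < dg w (TN z θ N H1) := by
  have hmem : H2 ∈ B H2 H3 := by
    unfold B
    exact Algebra.subset_adjoin (Set.mem_insert _ _)
  refine ⟨-(c • H2 ^ k), neg_mem (Subalgebra.smul_mem _ (pow_mem hmem k) c), ?_, ?_⟩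
  · rw [map_add, map_neg, map_smul, map_pow]
    refine len_add (len_mono hM h1) (len_neg (len_smul c (len_mono ?_ (len_pow h2 k))))
    exact (Nat.mul_le_mul_right M hk).trans hL
  · rw [map_add, map_neg, map_smul, map_pow, ← sub_eq_add_neg]
    exact hlt

theorem B_comm (f g : A K n) : B f g = B g f := by
  unfold B
  rw [Set.pair_comm]

end

theorem pball (K : Type*) [Field K] (w : Fin 3 → ℝ) (_hw : Gen w) (F : Facts K w)
    (hA : PbaStatement K w) (hB : PbbStatement K w) (hC : PbcStatement K w)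
    (hE : PbeStatement K w) : PballStatement K w := by
  intro z hz M
  obtain ⟨LA, mA, hA⟩ := hA z hz M
  obtain ⟨LB, mB, hB⟩ := hB z hz M
  obtain ⟨LC, mC, hC⟩ := hC z hz M
  obtain ⟨LE, mE, hE⟩ := hE z hz M
  refine ⟨mA + mB + mC + mE + (LA * M + LB * M + LC * M + LE * M + M),
    fun θ wd hlw hnp => ?_⟩
  obtain ⟨NA, hA⟩ := hA θ wd hlw (noper_mono (by omega) hnp)
  obtain ⟨NB, hB⟩ := hB θ wd hlw (noper_mono (by omega) hnp)
  obtain ⟨NC, hC⟩ := hC θ wd hlw (noper_mono (by omega) hnp)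
  obtain ⟨NE, hE⟩ := hE θ wd hlw (noper_mono (by omega) hnp)
  refine ⟨NA + NB + NC + NE, fun N hN H1 H2 H3 h1 h2 h3 hdt hfr hgd P hP => ?_⟩
  have hA := hA N (by omega)
  have hB := hB N (by omega)
  have hC := hC N (by omega)
  have hE := hE N (by omega)
  set m0 := mA + mB + mC + mE + (LA * M + LB * M + LC * M + LE * M + M) with hm0
  have hM : M ≤ m0 := by omega
  have hLA : LA * M ≤ m0 := by omega
  have hLB : LB * M ≤ m0 := by omega
  have hLC : LC * M ≤ m0 := by omega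
  have hLE : LE * M ≤ m0 := by omega
  have p1 : 0 < dg w (TN z θ N H1) := F.f.pos _ _ _ hfr
  have p2 : 0 < dg w (TN z θ N H2) := F.f.pos _ _ _ (F.f.p12 _ _ _ hfr)
  have hP' : dg w (TN z θ N H3 - ev (swp P) (TN z θ N H2) (TN z θ N H1))
      < dg w (TN z θ N H3) := by
    rw [ev_swp]; exact hP
  by_cases d1 : dt (Th z H1) = 0
  · have d2 : 1 ≤ dt (Th z H2) := by
      have : ¬ dt (Th z H2) = 0 := fun h => hdt ⟨d1, h⟩
      omega
    obtain ⟨P', hL', hlt⟩ := hB H1 H2 H3 h1 h2 h3 d1 d2 p1 P hP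
    exact Or.inl (move z θ N M LB m0 H1 H2 H3 h1 h2 h3 hM hLB P' hL' hlt)
  by_cases d2 : dt (Th z H2) = 0
  · obtain ⟨P', hL', hlt⟩ := hB H2 H1 H3 h2 h1 h3 d2 (by omega) p2 (swp P) hP'
    have := move (w := w) z θ N M LB m0 H2 H1 H3 h2 h1 h3 hM hLB P' hL' hlt
    rw [B_comm] at this
    exact Or.inl this
  have d1' : 1 ≤ dt (Th z H1) := by omega
  have d2' : 1 ≤ dt (Th z H2) := by omega
  by_cases hcom : Com w (TN z θ N H1) (TN z θ N H2)
  · by_cases hdv : Dv w (TN z θ N H1) (TN z θ N H2)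
    · obtain ⟨c, k, hk, hlt⟩ := hE H1 H2 h1 h2 d1' d2' hdv
      exact Or.inr (Or.inl (move' z θ N M LE m0 H1 H2 H3 h1 h2 hM hLE c k hk hlt))
    by_cases hdv' : Dv w (TN z θ N H2) (TN z θ N H1)
    · obtain ⟨c, k, hk, hlt⟩ := hE H2 H1 h2 h1 d2' d1' hdv'
      exact Or.inr (Or.inr (move' z θ N M LE m0 H2 H1 H3 h2 h1 hM hLE c k hk hlt))
    have hnd : ND w (TN z θ N H1) (TN z θ N H2) := ⟨p1, p2, hcom, hdv, hdv'⟩
    obtain ⟨P', hL', hlt⟩ := hC H1 H2 H3 h1 h2 h3 d1' d2' (F.f.nc _ _ _ hfr) hnd (hgd hnd) P hP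
    exact Or.inl (move z θ N M LC m0 H1 H2 H3 h1 h2 h3 hM hLC P' hL' hlt)
  · obtain ⟨P', hL', hlt⟩ := hA H1 H2 H3 h1 h2 h3 d1' d2' hcom P hP
    exact Or.inl (move z θ N M LA m0 H1 H2 H3 h1 h2 h3 hM hLA P' hL' hlt)

end Pool.Agent.Lib.MP_e1f7e2_al.FA.H78
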