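import Pool.Agent.Lib.MP_e1f7e2_al.FA.Iface2
import Pool.Agent.Lib.MP_e1f7e2_al.FA.H47.Gr

/-!
Project FA, modules PBE and PBC; lengths of words.
-/

set_option autoImplicit false

namespace Pool.Agent.Lib.MP_e1f7e2_al.FA.H78

section Len
variable {K : Type*} [Field K] {n m : ℕ}

theorem len_mono {a b : ℕ} (h : a ≤ b) {f : A K n} (hf : Len a f) : Len b f :=
  fun u hu => (hf u hu).trans h

theorem len_zero (a : ℕ) : Len a (0 : A K n) := by
  intro u hu
  rw [Finsupp.mem_support_iff] at hu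
  exact absurd rfl hu

theorem len_add {a : ℕ} {f g : A K n} (hf : Len a f) (hg : Len a g) : Len a (f + g) := by
  intro u hu
  rw [Finsupp.mem_support_iff, H47.Gr.coeff_add] at hu
  by_cases h : f.coeff u = 0
  · rw [h, zero_add] at hu
    exact hg u (Finsupp.mem_support_iff.2 hu)
  · exact hf u (Finsupp.mem_support_iff.2 h)

theorem len_smul {a : ℕ} (c : K) {f : A K n} (hf : Len a f) : Len a (c • f) := by
  intro u hu
  rw [Finsupp.mem_support_iff, H47.Gr.coeff_smul] at hu
  exact hf u (Finsupp.mem_support_iff.2 (right_ne_zero_of_mul hu))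

theorem len_neg {a : ℕ} {f : A K n} (hf : Len a f) : Len a (-f) := by
  have := len_smul (-1 : K) hf
  rwa [neg_one_smul] at this

theorem len_single (u : Wd n) (c : K) : Len u.toList.length (MonoidAlgebra.single u c : A K n) := by
  intro v hv
  rw [Finsupp.mem_support_iff, MonoidAlgebra.coeff_single] at hv
  by_cases h : v = u
  · rw [h]
  · rw [Finsupp.single_eq_of_ne h] at hv
    exact absurd rfl hv

theorem len_one : Len 0 (1 : A K n) := by
  rw [MonoidAlgebra.one_def]
  exact len_single 1 1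

theorem len_mul {a b : ℕ} {f g : A K n} (hf : Len a f) (hg : Len b g) : Len (a + b) (f * g) := by
  intro u hu
  rw [Finsupp.mem_support_iff] at hu
  obtain ⟨v, v', hv, hv', rfl⟩ := H47.Gr.supp_mul (ω := fun u : Wd n => (u.toList.length : ℝ))
    (fun a b => by rw [FreeMonoid.toList_mul, List.length_append]; push_cast; rfl) hu
  rw [FreeMonoid.toList_mul, List.length_append]
  exact add_le_add (hf v (Finsupp.mem_support_iff.2 hv)) (hg v' (Finsupp.mem_support_iff.2 hv'))

theorem len_pow {a : ℕ} {f : A K n} (hf : Len a f) (k : ℕ) : Len (k * a) (f ^ k) := by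
  induction k with
  | zero => rw [zero_mul, pow_zero]; exact len_one
  | succ k ih =>
    rw [pow_succ, Nat.succ_mul]
    exact len_mul ih hf

theorem len_word {a : ℕ} (F : Fin m → A K n) (hF : ∀ i, Len a (F i)) (u : Wd m) :
    Len (u.toList.length * a) (FreeMonoid.lift F u) := by
  induction u using FreeMonoid.recOn with
  | one =>
    rw [(FreeMonoid.lift F).map_one]
    exact len_mono (Nat.zero_le _) len_one
  | of_mul i u ih =>
    rw [(FreeMonoid.lift F).map_mul, FreeMonoid.lift_eval_of, FreeMonoid.toList_mul,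
      List.length_append]
    have : (FreeMonoid.of i).toList.length = 1 := rfl
    rw [this, Nat.add_mul, one_mul]
    exact len_mul (hF i) ih

theorem len_evl {a L : ℕ} (F : Fin m → A K n) (hF : ∀ i, Len a (F i)) {P : A K m} (hP : Len L P) :
    Len (L * a) (evl F P) := by
  classical
  have e : evl F P = ∑ u ∈ P.coeff.support, P.coeff u • FreeMonoid.lift F u := by
    conv_lhs => rw [← MonoidAlgebra.sum_coeff_single P]
    rw [Finsupp.sum, map_sum]
    apply Finset.sum_congr rfl
    intro u _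
    unfold evl
    rw [MonoidAlgebra.lift_single]
  rw [e]
  have : ∀ s ⊆ P.coeff.support, Len (L * a) (∑ u ∈ s, P.coeff u • FreeMonoid.lift F u) := by
    intro s
    induction s using Finset.induction_on with
    | empty => intro _; rw [Finset.sum_empty]; exact len_zero _
    | insert x s hx ih =>
      intro hs
      rw [Finset.sum_insert hx]
      refine len_add ?_ (ih ((Finset.subset_insert _ _).trans hs))
      refine len_smul _ (len_mono (Nat.mul_le_mul_right a ?_) (len_word F hF x))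
      exact hP x (hs (Finset.mem_insert_self _ _))
  exact this _ (Finset.Subset.refl _)

theorem len_ev {a L : ℕ} {f g : A K n} (hf : Len a f) (hg : Len a g) {P : A K 2}
    (hP : Len L P) : Len (L * a) (ev P f g) := by
  apply len_evl _ _ hP
  intro i
  fin_cases i
  · exact hf
  · exact hg

/-- exchange of the two letters -/
noncomputable def swp (P : A K 2) : A K 2 := evl ![xx 1, xx 0] P

theorem evl_xx (F : Fin m → A K n) (i : Fin m) : evl F (xx i : A K m) = F i := by
  unfold evl xx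
  rw [MonoidAlgebra.lift_single, one_smul, FreeMonoid.lift_eval_of]

theorem alg_ext {R : Type*} [Ring R] [Algebra K R] {φ ψ : A K m →ₐ[K] R}
    (h : ∀ i, φ (xx i) = ψ (xx i)) : φ = ψ := by
  have h1 : (φ : A K m →* R).comp (MonoidAlgebra.of K (Wd m)) =
      (ψ : A K m →* R).comp (MonoidAlgebra.of K (Wd m)) := FreeMonoid.hom_eq h
  apply MonoidAlgebra.algHom_ext
  · intro u
    exact DFunLike.congr_fun h1 u
  · ext

theorem ev_swp (P : A K 2) (f g : A K n) : ev (swp P) f g = ev P g f := by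
  have : (evl ![f, g] : A K 2 →ₐ[K] A K n).comp (evl ![xx 1, xx 0]) = evl ![g, f] := by
    apply alg_ext
    intro i
    rw [AlgHom.comp_apply, evl_xx, evl_xx]
    fin_cases i
    · exact evl_xx _ _
    · exact evl_xx _ _
  exact DFunLike.congr_fun this P

theorem xx_len (i : Fin n) : Len 1 (xx i : A K n) := len_single (FreeMonoid.of i) 1

theorem len_swp {L : ℕ} {P : A K 2} (hP : Len L P) : Len L (swp P) := by
  have hF : ∀ i, Len 1 ((![xx 1, xx 0] : Fin 2 → A K 2) i) := by
    intro i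
    fin_cases i
    · exact xx_len (1 : Fin 2)
    · exact xx_len (0 : Fin 2)
  have := len_evl (a := 1) (![xx 1, xx 0] : Fin 2 → A K 2) hF hP
  rw [mul_one] at this
  exact this

theorem swp_swp (P : A K 2) : swp (swp P) = P := by
  have : (evl ![xx 1, xx 0] : A K 2 →ₐ[K] A K 2).comp (evl ![xx 1, xx 0]) = AlgHom.id K _ := by
    apply alg_ext
    intro i
    rw [AlgHom.comp_apply, evl_xx]
    fin_cases i
    · exact evl_xx _ _
    · exact evl_xx _ _
  exact DFunLike.congr_fun this P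

end Len

section Bounds
variable {K : Type*} [Field K] {w : Fin 3 → ℝ}

theorem wt_le {n : ℕ} (w : Fin n → ℝ) (c : ℝ) (hc : ∀ i, w i ≤ c) (u : Wd n) :
    wt w u ≤ u.toList.length * c := by
  unfold wt
  induction u.toList with
  | nil => simp
  | cons i l ih =>
    rw [List.map_cons, List.sum_cons, List.length_cons]
    push_cast
    have := hc i
    linarith

theorem wt_nonneg {n : ℕ} (w : Fin n → ℝ) (hc : ∀ i, 0 ≤ w i) (u : Wd n) : 0 ≤ wt w u := by
  unfold wt
  apply List.sum_nonneg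
  intro x hx
  rw [List.mem_map] at hx
  obtain ⟨i, -, rfl⟩ := hx
  exact hc i

theorem w4_le (hw : Gen w) (i : Fin 4) : w4 w i ≤ sg w := by
  have h0 := hw.pos 0
  have h1 := hw.pos 1
  have h2 := hw.pos 2
  unfold w4 sg
  fin_cases i
  · show w 0 ≤ _; linarith
  · show w 1 ≤ _; linarith
  · show w 2 ≤ _; linarith
  · show (0 : ℝ) ≤ _; linarith

theorem w4_nonneg (hw : Gen w) (i : Fin 4) : 0 ≤ w4 w i := by
  unfold w4
  fin_cases i
  · exact (hw.pos 0).le
  · exact (hw.pos 1).le
  · exact (hw.pos 2).le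
  · exact le_rfl

theorem cnt_coeff {n : ℕ} (i : Fin n) (m : ℕ) (f : A K n) (u : Wd n)
    (h : (cnt i m f).coeff u ≠ 0) : f.coeff u ≠ 0 := by
  intro h0
  apply h
  unfold cnt
  show (f.coeff.filter _) u = 0
  rw [Finsupp.filter_apply]
  split_ifs
  · exact h0
  · rfl

theorem dt_le {M : ℕ} {G : A K 4} (hG : Len M G) : dt G ≤ M := by
  unfold dt
  apply Finset.sup_le
  intro u hu
  exact List.count_le_length.trans (hG u hu)

theorem et_le (hw : Gen w) {M : ℕ} {G : A K 4} (hG : Len M G) : et w G ≤ M * sg w := by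
  have hs : 0 ≤ sg w := by
    have h0 := hw.pos 0
    have h1 := hw.pos 1
    have h2 := hw.pos 2
    unfold sg; linarith
  unfold et dg
  apply H47.Gr.dgr_le (by positivity)
  intro u hu
  have hu' := hG u (Finsupp.mem_support_iff.2 (cnt_coeff 3 (dt G) G u hu))
  refine (wt_le (w4 w) (sg w) (w4_le hw) u).trans ?_
  apply mul_le_mul_of_nonneg_right _ hs
  exact_mod_cast hu'

theorem et_nonneg (hw : Gen w) (G : A K 4) : 0 ≤ et w G := by
  unfold et dg dgr
  split_ifs with h
  · obtain ⟨u, hu⟩ := h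
    exact (wt_nonneg (w4 w) (w4_nonneg hw) u).trans (Finset.le_sup' (wt (w4 w)) hu)
  · exact le_rfl

theorem lw_pos (hw : Gen w) {m : ℕ} {θ : A K 3} {wd : Wd 3} (h : IsLw w θ wd) (hp : NoPer m wd) :
    0 < dg w θ := by
  have h1 : wt w wd ≤ dg w θ := H47.Gr.le_dgr h.1
  refine lt_of_lt_of_le ?_ h1
  have hl : wd.toList ≠ [] := by
    intro h0
    have := hp.1
    rw [h0] at this
    exact absurd this (Nat.not_lt_zero _)
  unfold wt
  apply List.sum_pos
  · intro x hx
    rw [List.mem_map] at hx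
    obtain ⟨i, -, rfl⟩ := hx
    exact hw.pos i
  · simpa using hl

theorem noper_mono {a b : ℕ} (h : a ≤ b) {u : Wd 3} (hu : NoPer b u) : NoPer a u :=
  ⟨lt_of_le_of_lt h hu.1, fun r h1 h2 => hu.2 r h1 (h2.trans h)⟩

theorem TN_eq (z : Fin 3 → A K 3) (θ : A K 3) (N : ℕ) (H : A K 3) :
    TN z θ N H = sb (θ ^ N) (Th z H) := rfl

/-- degrees of `TN z θ N H` for `N` large -/
theorem tn_bounds (hw : Gen w) (hd : DegFacts K w) (hWL : WlStatement K w)
    (z : Fin 3 → A K 3) (M : ℕ) (θ : A K 3) (wd : Wd 3) (hlw : IsLw w θ wd) (hnp : NoPer M wd) :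
    ∃ N0 : ℕ, ∀ N ≥ N0, ∃ D : ℝ, 0 < D ∧ ∀ H : A K 3, Len M (Th z H) →
      dg w (TN z θ N H) < (M + 1) * D ∧ (1 ≤ dt (Th z H) → D ≤ dg w (TN z θ N H)) := by
  obtain ⟨N1, hN1⟩ := hWL M θ wd hlw hnp
  have hθ := lw_pos hw hlw hnp
  obtain ⟨N2, hN2⟩ := exists_nat_gt (M * sg w / dg w θ)
  refine ⟨max (max N1 N2) 1, fun N hN => ⟨N * dg w θ, ?_, ?_⟩⟩
  · have : 1 ≤ N := (le_max_right _ _).trans hN
    have : (1 : ℝ) ≤ N := by exact_mod_cast this
    positivity
  intro H hH
  have hNN1 : N1 ≤ N := (le_max_left _ _).trans ((le_max_left _ _).trans hN)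
  have hNN2 : N2 ≤ N := (le_max_right _ _).trans ((le_max_left _ _).trans hN)
  have hbig : M * sg w < N * dg w θ := by
    rw [div_lt_iff₀ hθ] at hN2
    refine lt_of_lt_of_le hN2 ?_
    apply mul_le_mul_of_nonneg_right _ hθ.le
    exact_mod_cast hNN2
  have hND : 0 ≤ (N : ℝ) * dg w θ := by positivity
  by_cases h0 : Th z H = 0
  · rw [TN_eq, h0, map_zero, hd.zero]
    constructor
    · have hM0 : (0 : ℝ) ≤ M := Nat.cast_nonneg M
      have hs : 0 ≤ sg w := by
        have h0 := hw.pos 0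
        have h1 := hw.pos 1
        have h2 := hw.pos 2
        unfold sg; linarith
      have : 0 < (N : ℝ) * dg w θ := lt_of_le_of_lt (mul_nonneg hM0 hs) hbig
      positivity
    · intro h1
      exfalso
      have : dt (0 : A K 4) = 0 := by
        unfold dt
        rfl
      omega
  · have h1 := (hN1 N hNN1 (Th z H) h0 hH).2
    rw [TN_eq, h1]
    have h2 := dt_le hH
    have h3 := et_le hw hH
    have h4 := et_nonneg hw (Th z H)
    have h2' : ((dt (Th z H) : ℕ) : ℝ) ≤ M := by exact_mod_cast h2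
    constructor
    · have h5 : (N : ℝ) * dt (Th z H) * dg w θ ≤ M * (N * dg w θ) := by
        have : (N : ℝ) * dt (Th z H) * dg w θ = dt (Th z H) * (N * dg w θ) := by ring
        rw [this]
        exact mul_le_mul_of_nonneg_right h2' hND
      linarith
    · intro h5
      have h5' : (1 : ℝ) ≤ ((dt (Th z H) : ℕ) : ℝ) := by exact_mod_cast h5
      have : (N : ℝ) * dt (Th z H) * dg w θ = dt (Th z H) * (N * dg w θ) := by ring
      rw [this]
      nlinarith

theorem dg_of_sub (hd : DegFacts K w) {f f' : A K 3} (h : dg w (f - f') < dg w f) :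
    dg w f' = dg w f := by
  have e : f' = f - (f - f') := by abel
  rw [e]
  exact hd.sub_left f (f - f') h

end Bounds

theorem pbe (K : Type*) [Field K] (w : Fin 3 → ℝ) (hw : Gen w) (hWL : WlStatement K w)
    (hd : DegFacts K w) : PbeStatement K w := by
  intro z _ M
  refine ⟨M, M, fun θ wd hlw hnp => ?_⟩
  obtain ⟨N0, hN0⟩ := tn_bounds hw hd hWL z M θ wd hlw hnp
  refine ⟨N0, fun N hN H1 H2 hH1 hH2 h1 h2 hdv => ?_⟩
  obtain ⟨D, hD, hb⟩ := hN0 N hN
  obtain ⟨c, k, hk, hlt⟩ := hdv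
  refine ⟨c, k, ?_, hlt⟩
  have hc : c ≠ 0 := by
    rintro rfl
    rw [zero_smul, sub_zero] at hlt
    exact lt_irrefl _ hlt
  have e1 := dg_of_sub hd hlt
  rw [hd.smul _ _ hc, hd.pow] at e1
  have u1 := (hb H1 hH1).1
  have l2 := (hb H2 hH2).2 h2
  by_contra hcon
  push Not at hcon
  have hk' : (M : ℝ) + 1 ≤ k := by exact_mod_cast hcon
  have : (M + 1) * D ≤ k * dg w (TN z θ N H2) :=
    mul_le_mul hk' l2 hD.le (by positivity)
  linarith

theorem pbc (K : Type*) [Field K] (w : Fin 3 → ℝ) (hw : Gen w) (hBD : BdStatement K w)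
    (hWL : WlStatement K w) (hd : DegFacts K w) (hc : ComwFacts K w) : PbcStatement K w := by
  intro z _ M
  obtain ⟨L, hL⟩ := hBD (M + 1) (M + 1)
  refine ⟨L, M, fun θ wd hlw hnp => ?_⟩
  obtain ⟨N0, hN0⟩ := tn_bounds hw hd hWL z M θ wd hlw hnp
  refine ⟨N0, fun N hN H1 H2 H3 hH1 hH2 hH3 h1 h2 hne hnd hgd P hP => ?_⟩
  obtain ⟨D, hD, hb⟩ := hN0 N hN
  have u1 := (hb H1 hH1).1
  have l1 := (hb H1 hH1).2 h1
  have u2 := (hb H2 hH2).1
  have l2 := (hb H2 hH2).2 h2
  have u3 := (hb H3 hH3).1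
  have e3 := dg_of_sub hd hP
  set f := TN z θ N H1
  set g := TN z θ N H2
  have hM1 : (0 : ℝ) < M + 1 := by positivity
  have hcast : ((M + 1 : ℕ) : ℝ) = (M : ℝ) + 1 := by push_cast; ring
  have bound : ∀ x y : ℝ, x < (M + 1) * D → D ≤ y → x ≤ ((M + 1 : ℕ) : ℝ) * y := by
    intro x y hx hy
    rw [hcast]
    have : ((M : ℝ) + 1) * D ≤ (M + 1) * y := mul_le_mul_of_nonneg_left hy hM1.le
    linarith
  have hEsymm : E w g f = E w f g := by
    unfold E
    rw [← hd.neg, neg_sub]
  have hDf : Df w g f = Df w f g := by unfold Df; rw [hEsymm]; ring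
  rcases lt_trichotomy (dg w g) (dg w f) with hgf | hgf | hgf
  · refine ⟨P, ?_, hP⟩
    exact hL f g hne hnd hgd hgf (bound _ _ u1 l2) P (bound _ _ (by rw [e3]; exact u3) l2)
  · exfalso
    obtain ⟨c, hc0, hlt⟩ := hc.prop f g hnd.pf hgf.symm hnd.com
    exact hnd.nfg ⟨c, 1, le_rfl, by rw [pow_one]; exact hlt⟩
  · refine ⟨P, ?_, hP⟩
    have hnd' : ND w g f := ⟨hnd.pg, hnd.pf, by
      have := hnd.com
      unfold Com at *
      rw [hEsymm]; linarith, hnd.ngf, hnd.nfg⟩
    have hgd' : Gd w g f := ⟨by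
      rw [hDf, min_comm]; exact hgd.lmin, by rw [hDf, max_comm]; exact hgd.lmax⟩
    have := hL g f (fun h => hne h.symm) hnd' hgd' hgf (bound _ _ u2 l1) (swp P)
      (bound _ _ (by rw [ev_swp, e3]; exact u3) l1)
    rw [← swp_swp P]
    exact len_swp this

end Pool.Agent.Lib.MP_e1f7e2_al.FA.H78
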